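import Pool.Agent.R539.SD.Stm

/-!
# MP_77e9aa_lc: the listed sets are closed walks (piece SD-KEY)
-/

set_option autoImplicit false

namespace Pool.Agent.R408.SD

open Pool.Agent.NPC Pool.Agent.R544 Pool.Agent.R539.SD

/-- The walk relation inside `Y`. -/
def Rel (E : Dg) (Y : Set Vx) (a b : Vx) : Prop := (a, b) ∈ E ∧ a ∈ Y ∧ b ∈ Y

theorem chain_walk {E : Dg} {Y : Set Vx} {a b m : ℕ} (hY : chn a b m ⊆ Y)
    (hE : ∀ t < m, (((a, b, t), (a, b, t + 1)) : Vx × Vx) ∈ E) :
    ∀ t ≤ m, Relation.ReflTransGen (fun x y : Vx => (x, y) ∈ E ∧ x ∈ Y ∧ y ∈ Y)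
      (a, b, 0) (a, b, t) := by
  intro t
  induction t with
  | zero => intro _; exact Relation.ReflTransGen.refl
  | succ t ih =>
    intro ht
    refine Relation.ReflTransGen.tail (ih (by omega)) ⟨hE t (by omega), ?_, ?_⟩
    · exact hY ⟨t, by omega, rfl⟩
    · exact hY ⟨t + 1, ht, rfl⟩

theorem close_walk {E : Dg} {Y : Set Vx} {a b m : ℕ} {v w : Vx} (hY : chn a b m ⊆ Y)
    (hE : ∀ t < m, (((a, b, t), (a, b, t + 1)) : Vx × Vx) ∈ E)
    (h1 : ((a, b, m), v) ∈ E) (hv : v ∈ Y) (hw : w ∈ Y)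
    (h2 : Relation.ReflTransGen (fun x y : Vx => (x, y) ∈ E ∧ x ∈ Y ∧ y ∈ Y) v w)
    (h3 : (w, ((a, b, 0) : Vx)) ∈ E) :
    Relation.TransGen (fun x y : Vx => (x, y) ∈ E ∧ x ∈ Y ∧ y ∈ Y) (a, b, 0) (a, b, 0) := by
  have hm : ((a, b, m) : Vx) ∈ Y := hY ⟨m, le_rfl, rfl⟩
  have h0 : ((a, b, 0) : Vx) ∈ Y := hY ⟨0, Nat.zero_le _, rfl⟩
  have s1 := chain_walk hY hE m le_rfl
  have s2 : Relation.TransGen (fun x y : Vx => (x, y) ∈ E ∧ x ∈ Y ∧ y ∈ Y) (a, b, 0) v :=
    Relation.TransGen.tail' s1 ⟨h1, hm, hv⟩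
  exact Relation.TransGen.tail (s2.trans_left h2) ⟨h3, hw, h0⟩

theorem close1 {E : Dg} {Y : Set Vx} {a b m : ℕ} {w : Vx} (hY : chn a b m ⊆ Y)
    (hE : ∀ t < m, (((a, b, t), (a, b, t + 1)) : Vx × Vx) ∈ E)
    (h1 : ((a, b, m), w) ∈ E) (hw : w ∈ Y) (h3 : (w, ((a, b, 0) : Vx)) ∈ E) :
    Relation.TransGen (fun x y : Vx => (x, y) ∈ E ∧ x ∈ Y ∧ y ∈ Y) (a, b, 0) (a, b, 0) :=
  close_walk hY hE h1 hw hw Relation.ReflTransGen.refl h3

theorem mem_const {n r : ℕ} {φ : N3} {e : Vx × Vx} (h : e ∈ constArcs n r) :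
    e ∈ lowDg n r φ := by
  unfold lowDg
  exact List.mem_append_left _ h

theorem mem_clause {n r : ℕ} {φ : N3} {j : ℕ} (hj : j < φ.length) {e : Vx × Vx}
    (h : e ∈ clauseArcs n r j (tr φ j).1 (tr φ j).2.1 (tr φ j).2.2) : e ∈ lowDg n r φ := by
  unfold lowDg
  exact List.mem_append_right _ (List.mem_flatMap.2 ⟨j, List.mem_range.2 hj, h⟩)

theorem mem_hub {n r s t : ℕ} {φ : N3} (hs : 1 ≤ s) (hsr : s ≤ r) (ht : t < r + 1) :
    (((4, s, t), (4, s, t + 1)) : Vx × Vx) ∈ lowDg n r φ := by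
  apply mem_const
  unfold constArcs
  refine List.mem_append_left _ (List.mem_append_left _
    (List.mem_flatMap.2 ⟨s - 1, List.mem_range.2 (by omega), ?_⟩))
  unfold hubArcs
  refine List.mem_map.2 ⟨t, List.mem_range.2 ht, ?_⟩
  have : s - 1 + 1 = s := by omega
  rw [this]

theorem mem_pair {n r i : ℕ} {φ : N3} (hi : i < n) {e : Vx × Vx} (h : e ∈ pairArcs r i) :
    e ∈ lowDg n r φ := by
  apply mem_const
  unfold constArcs
  exact List.mem_append_left _ (List.mem_append_right _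
    (List.mem_flatMap.2 ⟨i, List.mem_range.2 hi, h⟩))

theorem mem_link {n r i : ℕ} {φ : N3} (hi : i + 1 < n) {e : Vx × Vx} (h : e ∈ linkArcs r i) :
    e ∈ lowDg n r φ := by
  apply mem_const
  unfold constArcs
  exact List.mem_append_right _ (List.mem_flatMap.2 ⟨i, List.mem_range.2 (by omega), h⟩)

theorem mem_pair_chain {r i s : ℕ} (hs : s < r + 1) :
    (((3, i, s), (3, i, s + 1)) : Vx × Vx) ∈ pairArcs r i := by
  unfold pairArcs
  exact List.mem_append_left _ (List.mem_map.2 ⟨s, List.mem_range.2 hs, rfl⟩)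

theorem mem_pair_lev {r i s : ℕ} (hs : 1 ≤ s) (hsr : s ≤ r) {e : Vx × Vx}
    (h : e ∈ lev r s (3, i, s)) : e ∈ pairArcs r i := by
  unfold pairArcs
  refine List.mem_append_right _ (List.mem_flatMap.2 ⟨s - 1, List.mem_range.2 (by omega), ?_⟩)
  have : s - 1 + 1 = s := by omega
  rw [this]
  exact h

theorem mem_con_arc {n r q : ℕ} {f l : Vx} {e : Vx × Vx}
    (h : e = ((3, n - 1, r + 1), (2, q, 0)) ∨ e = ((2, q, 0), (3, n - 1, 0)) ∨
      e = (l, (2, q, 0)) ∨ e = ((2, q, r), f)) : e ∈ conArcs n r q f l := by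
  unfold conArcs
  apply List.mem_append_left
  simpa using h

theorem mem_con_chain {n r q s : ℕ} {f l : Vx} (hs : s < r) :
    (((2, q, s), (2, q, s + 1)) : Vx × Vx) ∈ conArcs n r q f l := by
  unfold conArcs
  exact List.mem_append_right _ (List.mem_append_left _
    (List.mem_map.2 ⟨s, List.mem_range.2 hs, rfl⟩))

theorem mem_con_lev {n r q s : ℕ} {f l : Vx} (hs : 1 ≤ s) (hsr : s ≤ r) {e : Vx × Vx}
    (h : e ∈ lev r s (2, q, s)) : e ∈ conArcs n r q f l := by
  unfold conArcs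
  refine List.mem_append_right _ (List.mem_append_right _
    (List.mem_flatMap.2 ⟨s - 1, List.mem_range.2 (by omega), ?_⟩))
  have : s - 1 + 1 = s := by omega
  rw [this]
  exact h

theorem mem_con0 {n r j a b c : ℕ} {e : Vx × Vx}
    (h : e ∈ conArcs n r (4 * j) (0, a, 0) (1, j, 0)) : e ∈ clauseArcs n r j a b c := by
  unfold clauseArcs
  exact List.mem_append_right _ (List.mem_append_left _ h)

theorem mem_con1 {n r j a b c : ℕ} {e : Vx × Vx}
    (h : e ∈ conArcs n r (4 * j + 1) (0, b, 0) (1, j, 1)) : e ∈ clauseArcs n r j a b c := by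
  unfold clauseArcs
  exact List.mem_append_right _ (List.mem_append_right _ (List.mem_append_left _ h))

theorem mem_con2 {n r j a b c : ℕ} {e : Vx × Vx}
    (h : e ∈ conArcs n r (4 * j + 2) (0, c, 0) (1, j, 2)) : e ∈ clauseArcs n r j a b c := by
  unfold clauseArcs
  exact List.mem_append_right _ (List.mem_append_right _ (List.mem_append_right _
    (List.mem_append_left _ h)))

theorem mem_con3 {n r j a b c : ℕ} {e : Vx × Vx}
    (h : e ∈ conArcs n r (4 * j + 3) (1, j, 0) (1, j, 2)) : e ∈ clauseArcs n r j a b c := by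
  unfold clauseArcs
  exact List.mem_append_right _ (List.mem_append_right _ (List.mem_append_right _
    (List.mem_append_right _ h)))

theorem mem_cl {n r j a b c : ℕ} {e : Vx × Vx}
    (h : e = ((0, a, 0), (1, j, 0)) ∨ e = ((0, b, 0), (1, j, 1)) ∨ e = ((0, c, 0), (1, j, 2)) ∨
      e = ((1, j, 0), (1, j, 1)) ∨ e = ((1, j, 1), (1, j, 2))) : e ∈ clauseArcs n r j a b c := by
  unfold clauseArcs
  apply List.mem_append_left
  simpa using h

theorem con_ex {n r q : ℕ} {φ : N3} (hq : q < 4 * φ.length) :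
    ∃ f l : Vx, ∀ e ∈ conArcs n r q f l, e ∈ lowDg n r φ := by
  have hj : q / 4 < φ.length := by omega
  rcases (by omega : 4 * (q / 4) = q ∨ 4 * (q / 4) + 1 = q ∨ 4 * (q / 4) + 2 = q ∨
    4 * (q / 4) + 3 = q) with h | h | h | h
  · refine ⟨(0, (tr φ (q / 4)).1, 0), (1, q / 4, 0), fun e he => mem_clause hj (mem_con0 ?_)⟩
    rw [h]; exact he
  · refine ⟨(0, (tr φ (q / 4)).2.1, 0), (1, q / 4, 1), fun e he => mem_clause hj (mem_con1 ?_)⟩
    rw [h]; exact he
  · refine ⟨(0, (tr φ (q / 4)).2.2, 0), (1, q / 4, 2), fun e he => mem_clause hj (mem_con2 ?_)⟩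
    rw [h]; exact he
  · refine ⟨(1, q / 4, 0), (1, q / 4, 2), fun e he => mem_clause hj (mem_con3 ?_)⟩
    rw [h]; exact he

/-- (K) The listed sets are closed walks. -/
theorem key (H : SHIT) : SKEY := by
  intro n r φ k d c hn hd hk hc
  have HH := fun (Y : Set Vx) (v : Vx) h => H (lowDg n r φ) k d c hd hk hc Y v h
  refine ⟨?_, ?_, ?_, ?_, ?_, ?_, ?_, ?_, ?_⟩
  · intro s hs hsr i hi
    refine HH _ _ (close1 (a := 4) (b := s) (m := r + 1) (w := (3, i, s))
      Set.subset_union_left (fun t ht => mem_hub hs hsr ht)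
      (mem_pair hi (mem_pair_lev hs hsr ?_)) (Or.inr rfl)
      (mem_pair hi (mem_pair_lev hs hsr ?_))) <;> simp [lev]
  · intro s hs hsr q hq
    obtain ⟨f, l, hfl⟩ := con_ex (n := n) (r := r) hq
    refine HH _ _ (close1 (a := 4) (b := s) (m := r + 1) (w := (2, q, s))
      Set.subset_union_left (fun t ht => mem_hub hs hsr ht)
      (hfl _ (mem_con_lev hs hsr ?_)) (Or.inr rfl)
      (hfl _ (mem_con_lev hs hsr ?_))) <;> simp [lev]
  · intro i hi
    refine HH _ _ (close1 (a := 3) (b := i) (m := r + 1) (w := (3, i + 1, 0))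
      Set.subset_union_left (fun t ht => mem_pair (by omega) (mem_pair_chain ht))
      (mem_link hi ?_) (Or.inr rfl) (mem_link hi ?_)) <;> simp [linkArcs]
  · intro i hi
    refine HH _ _ (close1 (a := 3) (b := i) (m := r + 1) (w := (3, i + 1, r + 1))
      Set.subset_union_left (fun t ht => mem_pair (by omega) (mem_pair_chain ht))
      (mem_link hi ?_) (Or.inr rfl) (mem_link hi ?_)) <;> simp [linkArcs]
  · intro q hq
    obtain ⟨f, l, hfl⟩ := con_ex (n := n) (r := r) hq
    refine HH _ _ (close1 (a := 3) (b := n - 1) (m := r + 1) (w := (2, q, 0))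
      Set.subset_union_left (fun t ht => mem_pair (by omega) (mem_pair_chain ht))
      (hfl _ (mem_con_arc (Or.inl rfl))) (Or.inr rfl)
      (hfl _ (mem_con_arc (Or.inr (Or.inl rfl)))))
  · intro j hj
    refine HH _ _ (close_walk (a := 2) (b := 4 * j) (m := r) (v := (0, (tr φ j).1, 0))
      (w := (1, j, 0))
      Set.subset_union_left
      (fun t ht => mem_clause hj (mem_con0 (mem_con_chain ht)))
      (mem_clause hj (mem_con0 (mem_con_arc (Or.inr (Or.inr (Or.inr rfl))))))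
      (Or.inr (by simp)) (Or.inr (by simp))
      (Relation.ReflTransGen.single ⟨mem_clause hj (mem_cl (by simp)), Or.inr (by simp),
        Or.inr (by simp)⟩)
      (mem_clause hj (mem_con0 (mem_con_arc (Or.inr (Or.inr (Or.inl rfl)))))))
  · intro j hj
    refine HH _ _ (close_walk (a := 2) (b := 4 * j + 1) (m := r) (v := (0, (tr φ j).2.1, 0))
      (w := (1, j, 1))
      Set.subset_union_left
      (fun t ht => mem_clause hj (mem_con1 (mem_con_chain ht)))
      (mem_clause hj (mem_con1 (mem_con_arc (Or.inr (Or.inr (Or.inr rfl))))))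
      (Or.inr (by simp)) (Or.inr (by simp))
      (Relation.ReflTransGen.single ⟨mem_clause hj (mem_cl (by simp)), Or.inr (by simp),
        Or.inr (by simp)⟩)
      (mem_clause hj (mem_con1 (mem_con_arc (Or.inr (Or.inr (Or.inl rfl)))))))
  · intro j hj
    refine HH _ _ (close_walk (a := 2) (b := 4 * j + 2) (m := r) (v := (0, (tr φ j).2.2, 0))
      (w := (1, j, 2))
      Set.subset_union_left
      (fun t ht => mem_clause hj (mem_con2 (mem_con_chain ht)))
      (mem_clause hj (mem_con2 (mem_con_arc (Or.inr (Or.inr (Or.inr rfl))))))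
      (Or.inr (by simp)) (Or.inr (by simp))
      (Relation.ReflTransGen.single ⟨mem_clause hj (mem_cl (by simp)), Or.inr (by simp),
        Or.inr (by simp)⟩)
      (mem_clause hj (mem_con2 (mem_con_arc (Or.inr (Or.inr (Or.inl rfl)))))))
  · intro j hj
    refine HH _ _ (close_walk (a := 2) (b := 4 * j + 3) (m := r) (v := (1, j, 0))
      (w := (1, j, 2))
      Set.subset_union_left
      (fun t ht => mem_clause hj (mem_con3 (mem_con_chain ht)))
      (mem_clause hj (mem_con3 (mem_con_arc (Or.inr (Or.inr (Or.inr rfl))))))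
      (Or.inr (by simp)) (Or.inr (by simp))
      ((Relation.ReflTransGen.single ⟨mem_clause hj (mem_cl (by simp)), Or.inr (by simp),
        Or.inr (by simp)⟩).tail (b := (1, j, 1)) ⟨mem_clause hj (mem_cl (by simp)), Or.inr (by simp),
        Or.inr (by simp)⟩)
      (mem_clause hj (mem_con3 (mem_con_arc (Or.inr (Or.inr (Or.inl rfl)))))))

end Pool.Agent.R408.SD
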